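import Pool.Agent.P.MP_f04817_lc.Co.Iface

/-! The steps that change when the identity is replaced by a subgroup `P`. -/

set_option autoImplicit false

namespace Pool.Agent.P.MP_f04817_lc.Co

open scoped Classical

/-- every element has a power in `P` -/
def Rad {G : Type} [Group G] (P : Subgroup G) : Prop := ∀ g : G, ∃ n : ℕ, 0 < n ∧ g ^ n ∈ P

/-- admissible valuations -/
def AdmP {V G : Type} [Group G] (P : Subgroup G) (ω : List V) (H : Set (List V → List V))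
    (D : Set V) (v : V → G) : Prop :=
  ∀ u, Reach ω H u → (∀ a ∈ u, a ∈ D) → val v u ∉ P

-- deps:
def S_ALGP : Prop :=
  ∀ (V G : Type) [Finite V] [Group G] [Infinite G] (P : Subgroup G), Rad P →
    ∀ (ω : List V) (H : Set (List V → List V)), (∀ h ∈ H, SwA.LHom h) →
    ∀ (D B : Set V) (e : V → G) (f : V → V),
    ∃ (N : Subgroup G) (Rel : (V → G × G) → Prop), N.FiniteIndex ∧
      (∀ j η, j ∈ B → Thin {x | Rel (Function.update η j (x, (η j).2))}) ∧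
      (∀ j η, j ∈ B → f j = j → Thin {x | Rel (Function.update η j ((η j).1, x))}) ∧
      (B ⊆ D → (∀ b ∈ B, f b ∈ B ∧ f (f b) = f b) →
        ∀ ψ1 ψ2, IsLoop H D B e f ψ1 → IsLoop H D B e f ψ2 → ∀ v : V → G, AdmP P ω H D v →
        (∀ a ∈ D, a ∉ B → v a = e a) → (∀ a ∈ B, f a ≠ a → v a = val e (ψ2 [a])) →
        ∀ u, Reach ω H u → (∀ a ∈ u, a ∈ D) → (∀ a ∈ B, u.count a = 1) →
        val v u ∈ N → ∀ η : V → G × G,
        (∀ a ∈ B, f a = a → ∃ α β, ψ1 [a] = α ++ a :: β ∧ η a = (val v α, (val v β)⁻¹)) →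
        (∀ a ∈ B, f a ≠ a → η a = (val e (ψ1 [a]), v a)) → Rel η)

-- deps: ALG
def S_SWBP : Prop :=
  ∀ (A G : Type) [Group G] [Infinite G] [Nonempty A] (P : Subgroup G), Rad P →
    ∀ (π : A → G) (S : Finset G), 1 ∈ S → (∀ g ∈ S, g⁻¹ ∈ S) →
    (SwA.EL fun w : List A => (w.map π).prod ∉ P) →
    ∃ (k K : ℕ) (D : Rels G k) (Y : Finset G) (N : Subgroup G), N.FiniteIndex ∧
      ∀ (z : ℕ → G) (n : ℕ), Path (S : Set G) z n → z n ∈ N → z n ∉ P →
      ∀ (W : ℕ → A) (ν : ℕ) (p : ℕ → G) (κ : ℕ → ℕ), p 0 = 1 → (∀ y, p (y + 1) = p y * π (W y)) →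
        p ν = z n → (∀ y ≤ ν, (z (κ y))⁻¹ * p y ∈ S) →
        SwA.Marked (fun _ : A => (1 : Unit)) {1} (fun _ => 1) n W ν (fun _ => 1) κ →
        Nonempty (Sw D K Y z n)

-- deps: SWB TAIL
def S_MAINP : Prop :=
  ∀ (A G : Type) [Group G] (P : Subgroup G), Rad P → ∀ (π : A → G) (a b : A),
    a ≠ b → π a * π b = 1 → (∀ x : A, ∃ x' : A, π x' = (π x)⁻¹) →
    Submonoid.closure (Set.range π) = ⊤ → Ed.Sys {g | g ∉ P} π → P.FiniteIndex

end Pool.Agent.P.MP_f04817_lc.Co
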