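import Pool.Agent.P.MP_f04817_lc.Co.TALG
import Pool.Agent.P.MP_f04817_lc.Cm.Iface

/-! Step ALG for the complement of a subgroup that contains a power of every element. -/

set_option autoImplicit false

namespace Pool.Agent.P.MP_f04817_lc.Co

open scoped Classical

namespace ALG

variable {V G : Type} [Group G]

/-- multipliers that keep `J` have inverses that keep `J` -/
def InvCl (J : Set (V → G)) : Prop :=
  ∀ m : V → G × G, (∀ u ∈ J, act m u ∈ J) → ∀ u ∈ J, act m⁻¹ u ∈ J

/-- the multipliers that keep `J` -/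
def stabP {J : Set (V → G)} (hG : InvCl J) : Subgroup (V → G × G) where
  carrier := {m | ∀ u ∈ J, act m u ∈ J}
  mul_mem' := fun {a b} ha hb u hu => by rw [act_mul]; exact ha _ (hb u hu)
  one_mem' := fun u hu => by rw [act_one]; exact hu
  inv_mem' := fun {m} hm => hG m hm

lemma right_indexP {J : Set (V → G)} (hG : InvCl J) (a : V)
    (h : ((stabP hG).comap (sl a)).index = 0) : ((stabP hG).comap (sr a)).index = 0 := by
  by_contra h0
  have : ((stabP hG).comap (sr a)).FiniteIndex := ⟨h0⟩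
  have hle : ((stabP hG).comap (sr a)).normalCore ≤ (stabP hG).comap (sl a) := by
    intro g hg u hu
    have h1 : ((u a)⁻¹ * g⁻¹ * u a) ∈ (stabP hG).comap (sr a) :=
      Subgroup.normalCore_le _
        ((Subgroup.normalCore_normal _).conj_mem' _ (Subgroup.inv_mem _ hg) (u a))
    have e : act (sl a g) u = act (sr a ((u a)⁻¹ * g⁻¹ * u a)) u := by
      funext b
      simp only [act, sl_apply, sr_apply]
      split_ifs with hb
      · subst hb; simp [mul_assoc]
      · rfl
    rw [e]
    exact h1 u hu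
  exact (Subgroup.finiteIndex_of_le hle).1 h

lemma ret {P : Subgroup G} (hR : Rad P) (m : V → G × G) (v : V → G) (w : List V) :
    ∃ N : ℕ, 0 < N ∧ ∀ n, N ∣ n → val (act (m ^ n) v) w * (val v w)⁻¹ ∈ P := by
  induction w using List.reverseRecOn with
  | nil => exact ⟨1, one_pos, fun n _ => by simp [val]⟩
  | append_singleton w a ih =>
    obtain ⟨N, hN, h⟩ := ih
    obtain ⟨n1, p1, q1⟩ := hR (val v w * (m a).1 * (val v w)⁻¹)
    obtain ⟨n2, p2, q2⟩ := hR (val v w * v a * ((m a).2)⁻¹ * (val v w * v a)⁻¹)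
    refine ⟨N * (n1 * n2), by positivity, fun n hn => ?_⟩
    obtain ⟨c1, e1⟩ : n1 ∣ n := ((dvd_mul_right n1 n2).trans (dvd_mul_left _ N)).trans hn
    obtain ⟨c2, e2⟩ : n2 ∣ n := ((dvd_mul_left n2 n1).trans (dvd_mul_left _ N)).trans hn
    have r1 := P.pow_mem q1 c1
    have r2 := P.pow_mem q2 c2
    rw [← pow_mul, ← e1, conj_pow] at r1
    rw [← pow_mul, ← e2, conj_pow, inv_pow] at r2
    have := P.mul_mem (P.mul_mem (h n ((dvd_mul_right N _).trans hn)) r1) r2
    convert this using 1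
    rw [val_append, val_append]
    simp only [val, act, List.map_cons, List.map_nil, List.prod_cons, List.prod_nil, mul_one,
      Pi.pow_apply, Prod.pow_fst, Prod.pow_snd]
    group

section loops

variable (P : Subgroup G) (ω : List V) (H : Set (List V → List V)) (D B : Set V) (e : V → G)
  (f : V → V)

/-- the slice of the admissible valuations -/
def sliP (q : V → G) : Set (V → G) := {u | AdmP P ω H D (mix B f q u)}

variable {P ω H D B e f}

lemma adm_congrP {v v' : V → G} (h : ∀ a ∈ D, v a = v' a) (hv : AdmP P ω H D v) :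
    AdmP P ω H D v' :=
  fun u hu hD => val_congr (fun a ha => h a (hD a ha)) ▸ hv u hu hD

lemma invCl (hR : Rad P) (q : V → G) : InvCl (sliP P ω H D B f q) := by
  intro m hm u hu w hw hD hP
  have hn : ∀ n : ℕ, act (m ^ n) u ∈ sliP P ω H D B f q := fun n => by
    induction n with
    | zero => rwa [pow_zero, act_one]
    | succ n ih => rw [pow_succ', act_mul]; exact hm _ ih
  obtain ⟨N, hN, h⟩ := ret hR (fun a => if a ∈ B ∧ f a = a then m a else 1)
    (mix B f q (act m⁻¹ u)) w
  obtain ⟨n, rfl⟩ := Nat.exists_eq_succ_of_ne_zero hN.ne'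
  have h1 := P.mul_mem (h _ dvd_rfl) hP
  rw [inv_mul_cancel_right] at h1
  refine hn n w hw hD ?_
  convert h1 using 2
  funext a
  simp only [mix, act, Pi.pow_apply, Pi.inv_apply]
  split_ifs
  · simp [pow_succ, mul_assoc]
  · simp

lemma loop_mapP (hH : ∀ h ∈ H, SwA.LHom h) (hBD : B ⊆ D) (hf : ∀ b ∈ B, f b ∈ B ∧ f (f b) = f b)
    {ψ : List V → List V} (hψ : IsLoop H D B e f ψ) {q : V → G} (hq : ∀ a ∈ D, a ∉ B → q a = e a)
    {u : V → G} (hu : u ∈ sliP P ω H D B f q) :
    act (mu B f ψ q) u ∈ sliP P ω H D B f (kap e ψ) := by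
  obtain ⟨l, hl, hψl⟩ := hψ.1
  have hhom : SwA.LHom ψ := hψl ▸ SwA.LHom.app fun h hh => hH h (hl h hh)
  have hw : AdmP P ω H D fun a => val (mix B f q u) (ψ [a]) := by
    rintro u' ⟨l', hl', rfl⟩ hD
    rw [val_hom hhom]
    refine hu _ ⟨l ++ l', fun h hh => (List.mem_append.1 hh).elim (hl h) (hl' h), ?_⟩ fun b hb => ?_
    · rw [SwA.app_append, hψl]
    · obtain ⟨a, ha, hb⟩ := mem_hom hhom hb
      exact hψ.2.1 a (hD a ha) b hb
  refine adm_congrP (fun a ha => ?_) hw
  by_cases hP : a ∈ B ∧ f a = a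
  · obtain ⟨α, β, hs⟩ := loop_split hBD hψ hP
    obtain ⟨e1, e2, h1, h2⟩ := loop_fix hBD hψ hP hs
    have a1 : val (mix B f q u) α = val q α := val_congr fun b hb => if_neg (h1 b hb).2
    have a2 : val (mix B f q u) β = val q β := val_congr fun b hb => if_neg (h2 b hb).2
    simp only [mix, act, mu, if_pos hP, e1, e2, inv_inv]
    rw [hs, val_append, val_cons, mul_assoc]
    change val (mix B f q u) α * (mix B f q u a * val (mix B f q u) β) = _
    rw [a1, a2, mix, if_pos hP]
  · simp only [mix, if_neg hP, kap]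
    refine val_congr fun b hb => ?_
    have hbB : b ∉ B := fun hbB => by
      have := hψ.2.2.2 a ha b hbB
      rw [if_neg fun h : f b = a => hP (h ▸ hf b hbB), List.count_eq_zero] at this
      exact this hb
    rw [mix, if_neg fun h : b ∈ B ∧ f b = b => hbB h.1]
    exact hq b (hψ.2.1 a ha b hb) hbB

end loops

end ALG

open ALG in
theorem p_ALGP : S_ALGP := by
  intro V G _ _ _ P hR ω H hH D B e f
  by_cases hb : B ⊆ D ∧ (∀ b ∈ B, f b ∈ B ∧ f (f b) = f b) ∧ ∃ ψ, IsLoop H D B e f ψ
  swap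
  · exact ⟨⊤, fun _ => False, inferInstance, fun _ _ _ => thin_empty fun _ h => h,
      fun _ _ _ _ => thin_empty fun _ h => h, fun h1 h2 ψ1 _ h3 => absurd ⟨h1, h2, ψ1, h3⟩ hb⟩
  obtain ⟨hBD, hf, ψ0, h0⟩ := hb
  have hG : InvCl (sliP P ω H D B f (kap e ψ0)) := invCl hR _
  set Hs := stabP hG with hHs
  have step : ∀ {ψ ψ' : List V → List V}, IsLoop H D B e f ψ → IsLoop H D B e f ψ' →
      ∀ u ∈ sliP P ω H D B f (kap e ψ'), act (mu B f ψ (kap e ψ')) u ∈ sliP P ω H D B f (kap e ψ) :=
    fun h h' u hu => loop_mapP hH hBD hf h h'.2.2.1 hu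
  have hx : ∀ {ψ : List V → List V}, IsLoop H D B e f ψ →
      mu B f ψ0 (kap e ψ) * mu B f ψ (kap e ψ0) ∈ Hs := fun h u hu => by
    rw [act_mul]; exact step h0 h _ (step h h0 u hu)
  by_cases hl : ∃ a, (a ∈ B ∧ f a = a) ∧ (Hs.comap (sl a)).FiniteIndex
  · obtain ⟨a, ha, hfi⟩ := hl
    refine ⟨(Hs.comap (sl a)).normalCore, fun _ => False, inferInstance,
      fun _ _ _ => thin_empty fun _ h => h, fun _ _ _ _ => thin_empty fun _ h => h,
      fun _ _ ψ1 ψ2 _ h2 v hv hv1 hv2 u hu huD hu1 huN _ _ _ => ?_⟩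
    have hvq : ∀ b ∈ D, ¬ (b ∈ B ∧ f b = b) → v b = kap e ψ2 b := fun b hbD hP => by
      by_cases hbB : b ∈ B
      · exact hv2 b hbB fun h => hP ⟨hbB, h⟩
      · rw [hv1 b hbD hbB]; exact (h2.2.2.1 b hbD hbB).symm
    have hvJ : v ∈ sliP P ω H D B f (kap e ψ2) := adm_congrP (fun b hbD => by
      unfold mix
      split_ifs with hP
      · rfl
      · exact hvq b hbD hP) hv
    obtain ⟨α, β, rfl, n1, n2⟩ := split_once (hu1 a ha.1)
    set m0 := mu B f ψ0 (kap e ψ2) with hm0
    set g := (val v α)⁻¹ * (val v (α ++ a :: β))⁻¹ * val v α with hg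
    have hN := Subgroup.normalCore_normal (Hs.comap (sl a))
    have g1 : g ∈ (Hs.comap (sl a)).normalCore := hN.conj_mem' _ (Subgroup.inv_mem _ huN) _
    have g2 : sl a ((m0 a).1 * g * ((m0 a).1)⁻¹) ∈ Hs :=
      Subgroup.mem_comap.1 (Subgroup.normalCore_le _ (hN.conj_mem g g1 (m0 a).1))
    have z1 := g2 _ (step h0 h2 v hvJ)
    have z2 := step h2 h0 _ (Hs.inv_mem (hx h2) _ z1)
    rw [← act_mul, ← act_mul, ← act_mul, ← hm0] at z2
    have e1 : mu B f ψ2 (kap e ψ0) * (m0 * mu B f ψ2 (kap e ψ0))⁻¹ *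
        sl a ((m0 a).1 * g * ((m0 a).1)⁻¹) * m0 = sl a g := by
      rw [mul_inv_rev, mul_inv_cancel_left]
      funext b
      simp only [Pi.mul_apply, Pi.inv_apply, sl_apply]
      split_ifs with hb
      · subst hb
        refine Prod.ext ?_ ?_ <;> simp [mul_assoc]
      · simp
    rw [e1] at z2
    have z3 : AdmP P ω H D (Function.update v a (g * v a)) := adm_congrP (fun b hbD => by
      simp only [mix, act, sl_apply]
      by_cases hba : b = a
      · subst hba; simp [ha]
      · rw [Function.update_of_ne hba, if_neg hba]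
        split_ifs with hP
        · simp
        · exact (hvq b hbD hP).symm) z2
    refine z3 _ hu huD (Set.mem_of_eq_of_mem (y := 1) ?_ P.one_mem)
    rw [val_append, val_cons, val_update0 v n1, val_update0 v n2, Function.update_self, hg,
      val_append, val_cons]
    group
  have hK : ∀ a, (a ∈ B ∧ f a = a) → (Hs.comap (sl a)).index = 0 := fun a ha => by
    by_contra h
    exact hl ⟨a, ha, ⟨h⟩⟩
  let q1 : (V → G × G) → V → G := fun η a => if a ∈ B then (η a).1 else e a
  let q2 : (V → G × G) → V → G := fun η a => if a ∈ B then (η a).2 else e a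
  let eP : (V → G × G) → V → G × G := fun η a => if a ∈ B ∧ f a = a then η a else 1
  have mu_fix : ∀ (η : V → G × G) (j : V) (y : G × G), (j ∈ B ∧ f j = j) →
      mu B f ψ0 (q1 (Function.update η j y)) = mu B f ψ0 (q1 η) ∧
      mu B f ψ0 (q2 (Function.update η j y)) = mu B f ψ0 (q2 η) := fun η j y hj =>
    ⟨mu_congr hBD h0 fun b _ hP => by
      simp only [q1, Function.update_of_ne (show b ≠ j from fun h => hP (h ▸ hj))],
    mu_congr hBD h0 fun b _ hP => by
      simp only [q2, Function.update_of_ne (show b ≠ j from fun h => hP (h ▸ hj))]⟩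
  refine ⟨⊤, fun η => mu B f ψ0 (q1 η) * eP η * (mu B f ψ0 (q2 η))⁻¹ ∈ Hs, inferInstance,
    fun j η hj => ?_, fun j η hj hfj => ?_,
    fun _ _ ψ1 ψ2 h1 h2 v _ hv1 hv2 _ _ _ _ _ η hη1 hη2 => ?_⟩
  · by_cases hfj : f j = j
    · simp only [(mu_fix η j _ ⟨hj, hfj⟩).1, (mu_fix η j _ ⟨hj, hfj⟩).2]
      refine thinL Hs j (hK j ⟨hj, hfj⟩) _ (mu B f ψ0 (q1 η) j).1 ((mu B f ψ0 (q2 η) j).1)⁻¹
        (fun x => ?_) (fun x y => ?_) fun x y b hb => ?_
      · simp [eP, hj, hfj]
      · simp [eP, hj, hfj]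
      · simp [eP, Function.update_of_ne hb]
    · have e1 : ∀ x, q1 (Function.update η j (x, (η j).2)) = Function.update (q1 η) j x :=
        fun x => funext fun b => by
          by_cases hb : b = j
          · subst hb; simp [q1, hj]
          · simp [q1, Function.update_of_ne hb]
      have e2 : ∀ x, q2 (Function.update η j (x, (η j).2)) = q2 η := fun x => funext fun b => by
        by_cases hb : b = j
        · subst hb; simp [q2]
        · simp [q2, Function.update_of_ne hb]
      have e3 : ∀ x, eP (Function.update η j (x, (η j).2)) = eP η := fun x => funext fun b => by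
        by_cases hb : b = j
        · subst hb; simp [eP, hfj]
        · simp [eP, Function.update_of_ne hb]
      simp only [e1, e2, e3, mul_assoc]
      set r := eP η * (mu B f ψ0 (q2 η))⁻¹ with hr
      have hP := hf j hj
      obtain ⟨α, β, hs⟩ := loop_split hBD h0 hP
      obtain ⟨s1, s2, -, -⟩ := loop_fix hBD h0 hP hs
      have hc := h0.2.2.2 (f j) (hBD hP.1) j hj
      rw [if_pos rfl, hs, List.count_append, List.count_cons_of_ne hfj] at hc
      have hoth : ∀ x y b, b ≠ f j → (mu B f ψ0 (Function.update (q1 η) j x) * r) b =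
          (mu B f ψ0 (Function.update (q1 η) j y) * r) b := fun x y b hb => by
        simp only [Pi.mul_apply, mu]
        split_ifs with hPb
        · obtain ⟨α', β', hs'⟩ := loop_split hBD h0 hPb
          obtain ⟨t1, t2, -, -⟩ := loop_fix hBD h0 hPb hs'
          have hc' := h0.2.2.2 b (hBD hPb.1) j hj
          rw [if_neg hb.symm, List.count_eq_zero, hs'] at hc'
          have m1 : j ∉ α' := fun h => hc' (by simp [h])
          have m2 : j ∉ β' := fun h => hc' (by simp [h])
          simp only [t1, t2, val_update0 _ m1, val_update0 _ m2]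
        · rfl
      rcases Nat.eq_zero_or_pos (α.count j) with c0 | c0
      · obtain ⟨A, C, hAC⟩ := val_update1 (q1 η) (show β.count j = 1 by omega)
        refine thinR Hs (f j) (right_indexP hG _ (hK _ hP)) _ (((r (f j)).2)⁻¹ * A) C
          (Or.inr fun x => ?_) (fun x y => ?_) hoth
        · simp [mu, hP, s2, hAC, mul_assoc]
        · simp [mu, hP, s1, val_update0 _ (List.count_eq_zero.1 c0)]
      · obtain ⟨A, C, hAC⟩ := val_update1 (q1 η) (show α.count j = 1 by omega)
        refine thinL Hs (f j) (hK _ hP) _ A (C * (r (f j)).1) (fun x => ?_) (fun x y => ?_) hoth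
        · simp [mu, hP, s1, hAC, mul_assoc]
        · simp [mu, hP, s2, val_update0 _ (List.count_eq_zero.1 (show β.count j = 0 by omega))]
  · simp only [(mu_fix η j _ ⟨hj, hfj⟩).1, (mu_fix η j _ ⟨hj, hfj⟩).2]
    refine thinR Hs j (right_indexP hG _ (hK j ⟨hj, hfj⟩)) _ (mu B f ψ0 (q1 η) j).2
      ((mu B f ψ0 (q2 η) j).2)⁻¹ (Or.inl fun x => ?_) (fun x y => ?_) fun x y b hb => ?_
    · simp [eP, hj, hfj]
    · simp [eP, hj, hfj]
    · simp [eP, Function.update_of_ne hb]
  · have hvq : ∀ b ∈ D, ¬ (b ∈ B ∧ f b = b) → v b = kap e ψ2 b := fun b hbD hP => by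
      by_cases hbB : b ∈ B
      · exact hv2 b hbB fun h => hP ⟨hbB, h⟩
      · rw [hv1 b hbD hbB]; exact (h2.2.2.1 b hbD hbB).symm
    have e1 : mu B f ψ0 (q1 η) = mu B f ψ0 (kap e ψ1) := mu_congr hBD h0 fun b hbD hP => by
      by_cases hbB : b ∈ B
      · simp only [q1, if_pos hbB, hη2 b hbB fun h => hP ⟨hbB, h⟩, kap]
      · simp only [q1, if_neg hbB]; exact (h1.2.2.1 b hbD hbB).symm
    have e2 : mu B f ψ0 (q2 η) = mu B f ψ0 (kap e ψ2) := mu_congr hBD h0 fun b hbD hP => by
      by_cases hbB : b ∈ B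
      · simp only [q2, if_pos hbB, hη2 b hbB fun h => hP ⟨hbB, h⟩]
        exact hvq b hbD hP
      · simp only [q2, if_neg hbB]; exact (h2.2.2.1 b hbD hbB).symm
    have e3 : eP η = mu B f ψ1 (kap e ψ2) := funext fun a => by
      simp only [eP, mu]
      split_ifs with hP
      · obtain ⟨α, β, hs, hη⟩ := hη1 a hP.1 hP.2
        obtain ⟨s1, s2, t1, t2⟩ := loop_fix hBD h1 hP hs
        rw [hη, s1, s2, val_congr fun b hb => hvq b (t1 b hb).1 (t1 b hb).2,
          val_congr fun b hb => hvq b (t2 b hb).1 (t2 b hb).2]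
      · rfl
    have hy : mu B f ψ0 (kap e ψ1) * mu B f ψ1 (kap e ψ2) * mu B f ψ2 (kap e ψ0) ∈ Hs :=
      fun u hu => by
        rw [act_mul, act_mul]; exact step h0 h1 _ (step h1 h2 _ (step h2 h0 u hu))
    have := Hs.mul_mem hy (Hs.inv_mem (hx h2))
    rw [mul_inv_rev, mul_assoc, mul_inv_cancel_left] at this
    simpa only [e1, e2, e3] using this

end Pool.Agent.P.MP_f04817_lc.Co
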