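import Pool.Agent.P.MP_f04817_lc.Co.TMAIN
import Pool.Agent.P.MP_f04817_lc.Cm.Iface

/-! If the words outside a subgroup form an EDT0L language then the subgroup has finite index. -/

set_option autoImplicit false

namespace Pool.Agent.P.MP_f04817_lc.Co

open scoped Classical

theorem p_MAINP (h1 : S_SWBP) (h2 : S_TAIL) : S_MAINP := by
  intro A G _ P hT π a b hab hπ hinv hcl h
  by_contra hG
  have : Infinite G := not_finite_iff_infinite.1 fun _ => hG inferInstance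
  obtain ⟨_, hE⟩ := MAIN.el h
  have : Nonempty A := ⟨a⟩
  have := Fintype.ofFinite A
  let S0 : Finset G := insert 1 (Finset.univ.image π)
  have m0 : ∀ g, g ∈ S0 ↔ g = 1 ∨ ∃ y, π y = g := fun g => by simp [S0]
  have i0 : ∀ g ∈ S0, g⁻¹ ∈ S0 := fun g hg => by
    rcases (m0 g).1 hg with rfl | ⟨y, rfl⟩
    · exact (m0 _).2 (.inl inv_one)
    · exact (m0 _).2 (.inr (hinv y))
  let S : Finset G := insert (π a ^ 2)⁻¹ (insert (π a ^ 2) S0)
  have m1 : ∀ g ∈ S0, g ∈ S := fun g hg => Finset.mem_insert_of_mem (Finset.mem_insert_of_mem hg)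
  have m2 : π a ^ 2 ∈ S := Finset.mem_insert_of_mem (Finset.mem_insert_self _ _)
  obtain ⟨k, K, D, Y, N, hN, hY⟩ := h1 A G P hT π S (m1 1 ((m0 1).2 (.inl rfl))) (fun g hg => by
    rcases Finset.mem_insert.1 hg with rfl | hg
    · rwa [inv_inv]
    · rcases Finset.mem_insert.1 hg with rfl | hg
      · exact Finset.mem_insert_self _ _
      · exact m1 _ (i0 g hg)) hE
  obtain ⟨s, hs, hs1⟩ : ∃ s ∈ N, s ∉ P := by
    by_contra c
    exact hG (Subgroup.finiteIndex_of_le (H := N) fun s hs => by_contra fun d => c ⟨s, hs, d⟩)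
  obtain ⟨z, n, hz, hn, hW⟩ := h2 G S0 ((m0 1).2 (.inl rfl)) i0 (top_le_iff.1 (hcl.ge.trans
    (Submonoid.closure_mono fun g hg => (m0 g).2 (.inr hg)))) k K D Y s
  have hx : ∀ i, ∃ o : Option A, i < n → Ed.opt π o = (z i)⁻¹ * z (i + 1) := fun i => by
    by_cases hi : i < n
    · rcases (m0 _).1 (hz.2 i hi) with e | ⟨y, e⟩
      · exact ⟨none, fun _ => e.symm⟩
      · exact ⟨some y, fun _ => e⟩
    · exact ⟨none, fun c => absurd c hi⟩
  choose x hx using hx
  have hq : ∀ i ≤ n, Ed.Q (Ed.opt π) x i = z i := fun i hi => by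
    induction i with
    | zero => exact hz.1.symm
    | succ i ih => rw [Ed.Q_succ, ih (by omega), hx i hi, mul_inv_cancel_left]
  obtain ⟨pos, ρ, e, W, k1, k2, k3, k4, k5, k6, k7⟩ := Ed.enc_symm π a b hab hπ x
  have hρ : Monotone ρ := monotone_nat_of_le_succ k2
  refine not_nonempty_iff.2 hW (hY z n ⟨hz.1, fun i hi => m1 _ (hz.2 i hi)⟩ (hn ▸ hs) (hn ▸ hs1) W
    (pos n) (Ed.Q π W) ρ rfl (fun _ => rfl) ?_ (fun y hy => ?_)
    ⟨rfl, fun _ => rfl, rfl, hρ, (k4 n).1, k1, k3, fun _ _ => Finset.mem_singleton.2 rfl, k7⟩)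
  · rw [k6, (k4 n).1, (k4 n).2, hq n le_rfl]
    simp
  · rw [k6, hq _ ((hρ hy).trans (k4 n).1.le), inv_mul_cancel_left]
    rcases (by have := k5 y; omega : e y = 0 ∨ e y = 1 ∨ e y = 2) with c | c | c <;> rw [c]
    · exact m1 _ ((m0 _).2 (.inl (pow_zero _)))
    · exact m1 _ ((m0 _).2 (.inr ⟨a, (pow_one _).symm⟩))
    · exact m2

end Pool.Agent.P.MP_f04817_lc.Co
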