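import Pool.Agent.P.MP_f04817_lc.Co.TSWB
import Pool.Agent.P.MP_f04817_lc.Cm.Iface

/-! A derivation of a marked word gives a sweep with relations (subgroup version). -/

set_option autoImplicit false

namespace Pool.Agent.P.MP_f04817_lc.Co

open scoped Classical Pointwise
open SwA

open SWB

theorem p_SWBP (hA : S_ALGP) : S_SWBP := by
  intro A G _ _ _ P htor π S h1 hS hE
  obtain ⟨V, _, ι, ω, H, hι, hH, hom, hL⟩ := hE
  have := Fintype.ofFinite V
  obtain ⟨K, hK⟩ := ((hH.prod (Set.finite_univ (α := V))).image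
    fun q => (q.1 [q.2]).length).bddAbove
  set Y : Finset G := S * S * S with hY
  have m3 : ∀ {x y w g : G}, x ∈ S → y ∈ S → w ∈ S → g = x * y * w → g ∈ Y :=
    fun hx hy hw e => e ▸ Finset.mul_mem_mul (Finset.mul_mem_mul hx hy) hw
  have one : (1 : G) ∈ Y := m3 h1 h1 h1 (by simp)
  let Cl : Type := Set V × Set V × (V → Y)
  choose N Rel hN th1 th2 hR using fun c : Cl × Cl × (V → V) =>
    hA V G P htor ω H hom c.2.1.1 c.2.1.2.1 (fun a => (c.2.1.2.2 a : G)) c.2.2
  let q : Fin (Fintype.card V) ≃ V := (Fintype.equivFin V).symm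
  let D : Rels G (Fintype.card V) :=
    { C := Cl × Cl × (V → V)
      fin := Fintype.ofFinite _
      Bg := fun c j => q j ∈ c.2.1.2.1
      Pm := fun c j => q j ∈ c.2.1.2.1 ∧ c.2.2 (q j) = q j
      Rel := fun c η => Rel c (η ∘ q.symm)
      thin1 := fun c j η hj => by
        simpa only [Function.update_comp_equiv, Equiv.symm_symm, Function.comp_apply,
          Equiv.symm_apply_apply] using th1 c (q j) (η ∘ q.symm) hj
      thin2 := fun c j η hj => by
        simpa only [Function.update_comp_equiv, Equiv.symm_symm, Function.comp_apply,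
          Equiv.symm_apply_apply] using th2 c (q j) (η ∘ q.symm) hj.1 hj.2 }
  refine ⟨Fintype.card V, Fintype.card V * K + ω.length, D, Y, ⨅ c, N c,
    Subgroup.finiteIndex_iInf hN, fun z n hz hzN hz1 W ν p κ p0 ps pe near hM => ?_⟩
  have hp : ∀ m, (((List.range m).map W).map π).prod = p m := fun m => by
    induction m with
    | zero => simp [p0]
    | succ m ih =>
      rw [List.range_succ, List.map_append, List.map_append, List.prod_append, ih, ps]
      simp
  obtain ⟨l, hl, hw⟩ := (hL ((List.range ν).map W)).1 (fun c => hz1 (pe ▸ hp ν ▸ c))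
  rw [List.map_map] at hw
  let ψ : ℕ → List V → List V := fun t => app (l.take t)
  let u : ℕ → List V := fun t => app (l.drop t) ω
  have hψ : ∀ t, LHom (ψ t) := fun t =>
    LHom.app fun h hh => hom h (hl h (List.mem_of_mem_take hh))
  have hbl : ∀ t t', ∀ h ∈ (l.drop t).take (t' - t), h ∈ H := fun t t' h hh =>
    hl h (List.mem_of_mem_drop (List.mem_of_mem_take hh))
  have hb : ∀ t t', LHom (btw l t t') := fun t t' => LHom.app fun h hh => hom h (hbl t t' h hh)
  have hu : ∀ t, ψ t (u t) = (List.range ν).map fun y => ι (W y) :=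
    fun t => by simp only [ψ, u]; rw [← app_append, List.take_append_drop, hw]; rfl
  have bf : ∀ {t t'}, t ≤ t' → btw l t t' (u t') = u t := fun h => btw_form l ω h
  have by' : ∀ {t t'}, t ≤ t' → ψ t' = fun v => ψ t (btw l t t' v) := fun h => btw_yield l h
  let π' : V → G := fun v => π (Function.invFun ι v)
  have hπ : ∀ a, π' (ι a) = π a := fun a => by simp only [π', Function.leftInverse_invFun hι a]
  let v : ℕ → V → G := fun t => vl π' (ψ t)
  have pv : ∀ t i, val (v t) ((u t).take i) = p (cut (ψ t) (u t) i) := fun t i =>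
    pre_val (hψ t) (hu t) p0 ps hπ i
  have vv : ∀ {t t'}, t ≤ t' → ∀ w, val (v t') w = val (v t) (btw l t t' w) := fun h w => by
    simp only [v]
    rw [val_vl π' (hψ _), val_vl π' (hψ _), by' h]
  have v1 : ∀ t a, val (v t) [a] = v t a := fun t a => by simp [val]
  have kle : ∀ t i, κ (cut (ψ t) (u t) i) ≤ n := fun t i =>
    hM.ke ▸ hM.mono (cut_le' (hψ t) (hu t) i)
  have nr : ∀ t i, (z (κ (cut (ψ t) (u t) i)))⁻¹ * p (cut (ψ t) (u t) i) ∈ S := fun t i =>
    near _ (cut_le' (hψ t) (hu t) i)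
  have sm : ∀ t a, a ∈ u t → ¬ Big κ (ψ t) (u t) a → v t a ∈ Y := fun t a ha hn => by
    have hi := List.idxOf_lt_length_of_mem ha
    have e := pv t ((u t).idxOf a + 1)
    rw [List.take_succ_eq_append_getElem hi, val_append, pv, List.getElem_idxOf, v1] at e
    have k1 := hM.mono (cut_mono (hψ t) (u t) (Nat.le_succ ((u t).idxOf a)))
    have k2 : ¬ _ := fun c => hn ((big_iff hM hι (hψ t) (hu t)).2 ⟨ha, c⟩)
    have k3 := kle t ((u t).idxOf a + 1)
    have na := hS _ (nr t ((u t).idxOf a))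
    have nb := nr t ((u t).idxOf a + 1)
    rw [eq_inv_mul_of_mul_eq e]
    simp only [Nat.succ_eq_add_one] at k1
    rcases (by omega : κ (cut (ψ t) (u t) ((u t).idxOf a + 1)) = κ (cut (ψ t) (u t) ((u t).idxOf a))
      ∨ κ (cut (ψ t) (u t) ((u t).idxOf a + 1)) = κ (cut (ψ t) (u t) ((u t).idxOf a)) + 1) with
      c | c
    · exact m3 na h1 nb (by rw [c]; simp [mul_assoc])
    · exact m3 na (hz.2 (κ (cut (ψ t) (u t) ((u t).idxOf a))) (by omega)) nb
        (by rw [c]; simp [mul_assoc])
  let cls : ℕ → Cl := fun t => ({a | a ∈ u t}, {a | Big κ (ψ t) (u t) a},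
    fun a => if c : a ∈ u t ∧ ¬ Big κ (ψ t) (u t) a then ⟨v t a, sm t a c.1 c.2⟩ else ⟨1, one⟩)
  have ce : ∀ t a, a ∈ u t → ¬ Big κ (ψ t) (u t) a → ((cls t).2.2 a : G) = v t a :=
    fun t a c1 c2 => by simp only [cls, dif_pos (And.intro c1 c2)]
  have bm : ∀ {t a}, Big κ (ψ t) (u t) a → a ∈ u t := fun c => ((big_iff hM hι (hψ _) (hu _)).1 c).1
  have bc : ∀ {t a}, Big κ (ψ t) (u t) a → (u t).count a = 1 := fun c =>
    big_count hM hι (hψ _) (hu _) c
  let f : ℕ → ℕ → V → V := fun t t' => par (btw l t t') (u t')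
  have fs : ∀ {t t' b}, t ≤ t' → Big κ (ψ t) (u t) b → f t t' b ∈ u t' ∧ b ∈ btw l t t' [f t t' b] :=
    fun h c => par_spec (hb _ _) (by rw [bf h]; exact bm c)
  have fc : ∀ {t t' a b}, t ≤ t' → Big κ (ψ t) (u t) b → a ∈ u t' →
      (btw l t t' [a]).count b = if f t t' b = a then 1 else 0 := fun h c ha =>
    count_one (hb _ _) (by rw [bf h]; exact bc c) (fs h c).1 (fs h c).2 ha
  have fp : ∀ {t t' b}, t ≤ t' → Big κ (ψ t) (u t) b → Big κ (ψ t') (u t') (f t t' b) ∧
      lft κ (ψ t') (u t') (f t t' b) ≤ lft κ (ψ t) (u t) b ∧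
      rgt κ (ψ t) (u t) b ≤ rgt κ (ψ t') (u t') (f t t' b) := fun {t t' b} h c => by
    have := parent hM hι (hψ t) (hb t t') (u := u t') (by rw [bf h]; exact hu t)
      (by rw [bf h]; exact c) (fs h c).1 (fs h c).2
    rwa [bf h, ← by' h] at this
  have nb : ∀ {t t' a}, t ≤ t' → a ∈ u t' → (∀ b, Big κ (ψ t) (u t) b → f t t' b ≠ a) →
      val (fun a => ((cls t).2.2 a : G)) (btw l t t' [a]) = v t' a := fun {t t' a} h ha hn => by
    rw [← v1, vv h]
    refine val_congr fun b hb' => ce t b (by rw [← bf h]; exact mem_of_mem (hb _ _) ha hb') fun c => ?_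
    have := fc h c ha
    rw [if_neg (hn b c)] at this
    exact List.count_eq_zero.1 this hb'
  have lp : ∀ {t t'}, t ≤ t' → cls t = cls t' → IsLoop H (cls t').1 (cls t').2.1
      (fun a => ((cls t').2.2 a : G)) (f t t') (btw l t t') := fun {t t'} h e => by
    refine ⟨⟨_, hbl t t', rfl⟩, fun a ha b hb' => ?_, fun a ha hn => ?_, fun a ha b hb' => ?_⟩
    · rw [← e]
      show b ∈ u t
      rw [← bf h]
      exact mem_of_mem (hb _ _) ha hb'
    · beta_reduce
      rw [ce t' a ha hn, ← e]
      exact nb h ha fun b c e' => hn (e' ▸ (fp h c).1)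
    · rw [← e] at hb'
      exact fc h hb' ha
  have adm : ∀ t, AdmP P ω H (cls t).1 (v t) := fun t u' ⟨l', hl', e'⟩ s1 => by
    have := (hL ((ψ t u').map (Function.invFun ι))).2 ⟨l.take t ++ l', fun h hh =>
      (List.mem_append.1 hh).elim (fun hh => hl h (List.mem_of_mem_take hh)) (hl' h), ?_⟩
    · simp only [List.map_map] at this
      simp only [v]
      rw [val_vl π' (hψ t)]
      exact this
    rw [app_append, e', List.map_map]
    refine (List.map_id _).symm.trans (List.map_congr_left fun a ha => ?_)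
    obtain ⟨w, hw', hav⟩ := mem_hom (hψ t) _ ha
    obtain ⟨i, hi, rfl⟩ := List.getElem_of_mem (show w ∈ u t from s1 w hw')
    obtain ⟨o, ho, rfl⟩ := List.getElem_of_mem hav
    have := yield_get (hψ t) (hu t) hi ho
    rw [List.getElem?_eq_getElem ho, Option.some_inj] at this
    rw [this]
    simp [Function.leftInverse_invFun hι _]
  let st : ℕ → Fin (Fintype.card V) → Ent Unit := fun t j =>
    (lft κ (ψ t) (u t) (q j), rgt κ (ψ t) (u t) (q j), 1, 1)
  have hc : ∀ t e, cov (st t) e ↔ CovU κ (ψ t) (u t) e := fun t e => by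
    rw [← arc_cov hM hι (hψ t) (hu t)]
    exact ⟨fun ⟨j, hj⟩ => ⟨q j, hj⟩, fun ⟨a, ha⟩ => ⟨q.symm a, by simpa [st] using ha⟩⟩
  have e1 : ∀ t, ∀ ht : t < l.length, ψ (t + 1) = fun v => ψ t (l[t] v) :=
    fun t ht => funext fun v => by
      simp only [ψ]
      rw [List.take_succ_eq_append_getElem ht, app_append]; rfl
  have e2 : ∀ t, ∀ ht : t < l.length, u t = l[t] (u (t + 1)) :=
    fun t ht => by simp only [u]; rw [List.drop_eq_getElem_cons ht]; rfl
  let y : ℕ → V → G × G := fun t a => if Big κ (ψ t) (u t) a then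
    ((z (lft κ (ψ t) (u t) a))⁻¹ * p (cut (ψ t) (u t) ((u t).idxOf a)),
      (z (rgt κ (ψ t) (u t) a))⁻¹ * p (cut (ψ t) (u t) ((u t).idxOf a + 1))) else (1, 1)
  have yv : ∀ {t a}, Big κ (ψ t) (u t) a →
      (z (lft κ (ψ t) (u t) a) * (y t a).1, z (rgt κ (ψ t) (u t) a) * (y t a).2) =
        (val (v t) ((u t).take ((u t).idxOf a)), val (v t) ((u t).take ((u t).idxOf a + 1))) :=
    fun c => by simp only [y, if_pos c, mul_inv_cancel_left, pv]
  have vs : ∀ {t a}, a ∈ u t → val (v t) ((u t).take ((u t).idxOf a + 1)) =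
      val (v t) ((u t).take ((u t).idxOf a)) * v t a := fun ha => by
    rw [List.take_succ_eq_append_getElem (List.idxOf_lt_length_of_mem ha), val_append,
      List.getElem_idxOf, v1]
  refine ⟨⟨⟨l.length, st, fun t _ j => arc_le hM hι (hψ t) (hu t) _,
    fun t _ j => ⟨Finset.mem_singleton_self _, Finset.mem_singleton_self _⟩,
    fun t _ i j hij => arc_disj hM hι (hψ t) (hu t) fun c => hij (q.injective c),
    fun t _ => Subsingleton.elim _ _, fun t ht e he => ?_, fun t ht => ?_, fun e he => ?_, ?_⟩,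
    fun t j => y t (q j), fun t j => ?_, fun t t' => (cls t, cls t', f t t'), ?_⟩⟩
  · rw [hc] at he ⊢
    rw [e1 t ht]
    rw [e2 t ht] at he
    exact covU_mono hM.mono (hψ t) (hom _ (hl _ (List.getElem_mem ht))) _ he
  · obtain ⟨B, hB, hB'⟩ := covU_grow (κ := κ) (ψ := ψ t)
      (hom _ (hl _ (List.getElem_mem ht))) (u (t + 1)) (K := K)
      (fun v => hK ⟨(l[t], v), ⟨hl _ (List.getElem_mem ht), Set.mem_univ _⟩, rfl⟩)
      (fun i j hi hj e hb => idx_uniq hM hι (hψ (t + 1)) (hu (t + 1)) hi hj e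
        (by rwa [e1 t ht]))
    refine ⟨B, by omega, fun e he => ?_⟩
    rw [hc] at he ⊢
    rw [e1 t ht] at he
    rw [e2 t ht]
    exact hB' e he
  · obtain ⟨i, hi, a, b⟩ := (hc 0 e).1 he
    rw [cut_succ (hψ 0) _ hi] at b
    have := hM.ks (cut (ψ 0) (u 0) i)
    exact absurd b (not_lt.2 (this.trans a))
  · have e3 : u l.length = ω := by simp only [u]; rw [List.drop_length]; rfl
    refine ⟨(Finset.range ω.length).image fun j => κ (cut (ψ l.length) ω j),
      Finset.card_image_le.trans (by simp), fun e he => ?_⟩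
    rw [hc, e3]
    refine (cov_or _ ω (Nat.zero_le _) le_rfl (by rw [cut_zero (hψ _), hM.k0]; omega)
      ?_).imp_right fun ⟨j, _, j2, j3⟩ => Finset.mem_image.2 ⟨j, by simpa using j2, j3⟩
    have := hu l.length
    rw [e3] at this
    rw [cut_len, this]
    simpa [hM.ke] using he
  · simp only [y]
    split_ifs with c
    · have k2 := ((big_iff hM hι (hψ t) (hu t)).1 c).2
      have k3 := kle t ((u t).idxOf (q j) + 1)
      simp only [lft, rgt, if_pos c]
      exact ⟨m3 (hS _ (hz.2 (κ (cut (ψ t) (u t) ((u t).idxOf (q j)))) (by omega)))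
        (nr t ((u t).idxOf (q j))) h1 (by simp [mul_assoc]),
        m3 (nr t ((u t).idxOf (q j) + 1)) h1 h1 (by simp)⟩
    · exact ⟨one, one⟩
  · intro t t' t'' h h' _ c1 c2
    obtain ⟨a1, a2, a3⟩ : cls t = cls t' ∧ cls t' = cls t'' ∧ f t t' = f t' t'' :=
      ⟨congrArg (fun c => c.1) c1, congrArg (fun c => c.2.1) c1, congrArg (fun c => c.2.2) c1⟩
    have a4 : f t t'' = f t' t'' := congrArg (fun c => c.2.2) c2
    have b1 : ∀ a, Big κ (ψ t) (u t) a ↔ Big κ (ψ t'') (u t'') a := fun a =>
      Set.ext_iff.1 (congrArg (fun c => c.2.1) (a1.trans a2)) a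
    have b2 : ∀ a, Big κ (ψ t') (u t') a ↔ Big κ (ψ t'') (u t'') a := fun a =>
      Set.ext_iff.1 (congrArg (fun c => c.2.1) a2) a
    have idem : ∀ b, Big κ (ψ t'') (u t'') b → f t' t'' (f t' t'' b) = f t' t'' b := fun b c => by
      have c0 := (b1 b).2 c
      have d1 := fs h.le c0
      have d2 := fs h'.le (fp h.le c0).1
      have d3 := fc (h.le.trans h'.le) c0 d2.1
      rw [btw_comp l h.le h'.le] at d3
      have d4 := List.count_pos_iff.2 (mem_of_mem (hb t t') d2.2 d1.2)
      rw [a3, a4] at d3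
      rw [a3] at d4
      by_contra hne
      rw [if_neg fun c => hne c.symm] at d3
      omega
    refine ⟨?_, fun j hj => big_of_lt hj, fun j hj => ?_⟩
    · refine hR (cls t', cls t'', f t' t'') (fun a c => bm c)
        (fun b c => ⟨(fp h'.le ((b2 b).2 c)).1, idem b c⟩) (btw l t' t'') (btw l t t')
        (lp h'.le a2) (by rw [← a2, ← a3]; exact lp h.le a1) (v t') (by rw [← a2]; exact adm t')
        (fun a ha hn => by rw [← a2] at ha hn ⊢; exact (ce t' a ha hn).symm) (fun a ha hn => ?_)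
        (u t') ⟨_, fun h hh => hl h (List.mem_of_mem_drop hh), rfl⟩
        (fun a ha => by rw [← a2]; exact ha) (fun a ha => bc ((b2 a).2 ha)) ?_ _
        (fun a ha hf => ?_) fun a ha hf => ?_
      · rw [← a2, ← a1]
        refine (nb h.le (bm ((b2 a).2 ha)) fun b c e => hn ?_).symm
        rw [a3] at e
        rw [← e]
        exact idem b ((b1 b).1 c)
      · have := pv t' (u t').length
        rw [List.take_length, cut_len, hu, List.length_map, List.length_range, pe] at this
        rw [this]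
        exact Subgroup.mem_iInf.1 hzN _
      · have c' := (b2 a).2 ha
        have d := (fs h'.le c').2
        rw [show f t' t'' a = a from hf] at d
        obtain ⟨α, β, e⟩ := List.append_of_mem d
        obtain ⟨s1, s2⟩ := split (hb t' t'') (by rw [bf h'.le]; exact bc c') (bm ha) e
        rw [bf h'.le] at s1 s2
        refine ⟨α, β, e, ?_⟩
        simp only [Function.comp_apply, st, D, Equiv.apply_symm_apply]
        rw [yv ha, yv c', eta, if_pos ⟨ha, hf⟩, vv h'.le, vv h'.le, ← s2, s1, val_append, val_append]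
        simp only [Prod.mk.injEq]
        constructor <;> group
      · have c' := (b2 a).2 ha
        simp only [Function.comp_apply, st, D, Equiv.apply_symm_apply]
        rw [yv ha, yv c', eta, if_neg fun c => hf c.2, vs (bm ha), vs (bm c'), ← a2,
          nb h'.le (bm ha) fun b c e => hf (by rw [← e]; exact idem b ((b2 b).1 c))]
        simp
    · have := (fp h'.le ((b2 _).2 hj.1)).2
      rwa [show f t' t'' (q j) = q j from hj.2] at this

end Pool.Agent.P.MP_f04817_lc.Co
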